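import Pool.Agent.Q274.BKC.Stm2

/-!
# JOB BKC-4 (ODD)
-/

set_option autoImplicit false
set_option linter.unusedVariables false

namespace Pool.Agent.Q154.BKC

open NumberField IsDedekindDomain Polynomial Pool.Agent.Q274.BKC

section quad

variable {K : Type} [Field K] [NumberField K] {q : ℕ} {s : K}

theorem irr (hq : 0 < q) : Irreducible (X ^ 2 + C (q : ℚ) : ℚ[X]) := by
  refine irreducible_of_degree_le_three_of_not_isRoot ?_ ?_
  · have : (X ^ 2 + C (q : ℚ) : ℚ[X]).natDegree = 2 := by compute_degree!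
    rw [this]
    decide
  · intro x hx
    have h1 : x ^ 2 + (q : ℚ) = 0 := by simpa [IsRoot] using hx
    have h2 : (0 : ℚ) < q := by exact_mod_cast hq
    nlinarith [sq_nonneg x]

theorem minpoly_s (hq : 0 < q) (hs : s ^ 2 = -(q : K)) :
    minpoly ℚ s = X ^ 2 + C (q : ℚ) := by
  symm
  refine minpoly.eq_of_irreducible_of_monic (irr hq) ?_ ?_
  · simp [hs]
  · exact Polynomial.monic_X_pow_add_C _ two_ne_zero

theorem adjoin_top (hq : 0 < q) (hs : s ^ 2 = -(q : K)) (h2 : Module.finrank ℚ K = 2) :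
    Algebra.adjoin ℚ {s} = ⊤ := by
  have h1 : IntermediateField.adjoin ℚ {s} = ⊤ := by
    rw [Field.primitive_element_iff_minpoly_natDegree_eq, minpoly_s hq hs, h2]
    compute_degree!
  have h3 := IntermediateField.adjoin_simple_toSubalgebra_of_isAlgebraic
    (Algebra.IsAlgebraic.isAlgebraic (R := ℚ) s)
  rw [← h3, h1]
  rfl

theorem exists_S (hs : s ^ 2 = -(q : K)) : ∃ S : 𝓞 K, (S : K) = s ∧ S ^ 2 = -(q : 𝓞 K) := by
  have h1 : IsIntegral ℤ s := by
    refine ⟨X ^ 2 + C (q : ℤ), Polynomial.monic_X_pow_add_C _ two_ne_zero, ?_⟩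
    simp [hs]
  obtain ⟨S, hS⟩ : ∃ S : 𝓞 K, algebraMap (𝓞 K) K S = s := ⟨⟨s, h1⟩, rfl⟩
  refine ⟨S, hS, ?_⟩
  apply RingOfIntegers.ext
  change algebraMap (𝓞 K) K (S ^ 2) = algebraMap (𝓞 K) K (-(q : 𝓞 K))
  rw [map_pow, map_neg, map_natCast, hS]
  exact hs

theorem minpoly_S (hq : 0 < q) (hs : s ^ 2 = -(q : K)) {S : 𝓞 K} (hS : (S : K) = s) :
    minpoly ℤ S = X ^ 2 + C (q : ℤ) := by
  have h1 := minpoly.isIntegrallyClosed_eq_field_fractions ℚ K (s := S) (RingOfIntegers.isIntegral S)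
  have h2 : (algebraMap (𝓞 K) K) S = s := hS
  rw [h2, minpoly_s hq hs] at h1
  apply Polynomial.map_injective (algebraMap ℤ ℚ) (algebraMap ℤ ℚ).injective_int
  rw [← h1]
  simp

theorem two_S_mem (hq : 0 < q) (hs : s ^ 2 = -(q : K)) (h2 : Module.finrank ℚ K = 2) {S : 𝓞 K}
    (hS : (S : K) = s) : 2 * S ∈ differentIdeal ℤ (𝓞 K) := by
  have h1 := aeval_derivative_mem_differentIdeal ℤ ℚ K (B := 𝓞 K) S (by
    have h3 : (algebraMap (𝓞 K) K) S = s := hS
    rw [h3]
    exact adjoin_top hq hs h2)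
  rw [minpoly_S hq hs hS] at h1
  have h4 : (aeval S) (2 : ℤ[X]) = 2 := map_ofNat _ 2
  simpa [h4] using h1

/-- An odd prime `l ≠ q` is unramified. -/
theorem notMem_sq (hq : 0 < q) (hs : s ^ 2 = -(q : K)) (h2 : Module.finrank ℚ K = 2) {S : 𝓞 K}
    (hS : (S : K) = s) (v : HeightOneSpectrum (𝓞 K)) (l : ℕ) (hl : l.Prime)
    (hlv : (l : 𝓞 K) ∈ v.asIdeal) (h2v : (2 : 𝓞 K) ∉ v.asIdeal) (hSv : S ∉ v.asIdeal) :
    (l : 𝓞 K) ∉ v.asIdeal ^ 2 := by
  intro hmem
  have hp : Prime (l : ℤ) := Nat.prime_iff_prime_int.1 hl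
  have hmax : (Ideal.span {(l : ℤ)}).IsMaximal :=
    PrincipalIdealRing.isMaximal_of_irreducible hp.irreducible
  have h3 : v.asIdeal ^ 2 ∣ (Ideal.span {(l : ℤ)}).map (algebraMap ℤ (𝓞 K)) := by
    rw [Ideal.dvd_iff_le, Ideal.map_span, Ideal.span_le]
    simpa using hmem
  have h4 := pow_sub_one_dvd_differentIdeal ℤ (B := 𝓞 K) (p := Ideal.span {(l : ℤ)}) v.asIdeal 2
    (by simpa using hp.ne_zero) h3
  have h5 := (Ideal.dvd_iff_le.1 h4) (two_S_mem hq hs h2 hS)
  rw [show 2 - 1 = 1 from rfl, pow_one] at h5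
  rcases v.isPrime.mem_or_mem h5 with h | h
  · exact h2v h
  · exact hSv h

end quad

open WithZero in
theorem odd_ne {K : Type} [Field K] [NumberField K] (v : HeightOneSpectrum (𝓞 K)) (x a : K)
    (ha : a ≠ 0) (hx : v.valuation K x = exp (-1 : ℤ)) : v.valuation K (x * a ^ 2) ≠ 1 := by
  intro h
  rw [map_mul, map_pow, hx] at h
  have h1 : v.valuation K a ≠ 0 := (Valuation.ne_zero_iff _).2 ha
  obtain ⟨n, hn⟩ : ∃ n : ℤ, v.valuation K a = exp n := ⟨_, (exp_log h1).symm⟩
  rw [hn, ← exp_nsmul, ← exp_add, exp_eq_one] at h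
  rw [nsmul_eq_mul] at h
  push_cast at h
  omega

/-- **BKC-4 (ODD).** -/
theorem t_ODD : S_ODD := by
  intro K _ _ q D s hq hq8 hD hs h2 l v hl hlqD hlv a ha
  have hq0 := hq.pos
  obtain ⟨S, hS, hS2⟩ := exists_S (q := q) hs
  have hvp := v.isPrime
  -- two coprime integers are not both in `v`
  have hcop : ∀ a b : ℕ, Nat.Coprime a b → (a : 𝓞 K) ∈ v.asIdeal → (b : 𝓞 K) ∉ v.asIdeal := by
    intro a b hab h1 h2
    apply hvp.ne_top
    rw [Ideal.eq_top_iff_one]
    have h3 : IsCoprime (a : ℤ) b := Nat.isCoprime_iff_coprime.2 hab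
    obtain ⟨x, y, hxy⟩ := h3
    have h4 := congrArg (fun z : ℤ => (z : 𝓞 K)) hxy
    simp only [Int.cast_add, Int.cast_mul, Int.cast_natCast, Int.cast_one] at h4
    rw [← h4]
    exact v.asIdeal.add_mem (v.asIdeal.mul_mem_left _ h1) (v.asIdeal.mul_mem_left _ h2)
  have hDq : Nat.Coprime D q := by
    rw [Nat.coprime_comm, Nat.Prime.coprime_iff_not_dvd hq]
    intro h
    exact (hD.one q hq h).2 rfl
  have hval : ∀ r : 𝓞 K, r ∉ v.asIdeal → v.valuation K (r : K) = 1 := by
    intro r hr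
    exact (HeightOneSpectrum.valuation_eq_one_iff_notMem v).2 hr
  have hD' : ((D : 𝓞 K) : K) = (D : K) := by simp
  refine odd_ne v _ a ha ?_
  rw [map_mul, ← hS]
  by_cases hlq : l = q
  · -- `l = q`
    subst hlq
    have h3 : v.valuation K (D : K) = 1 := by
      rw [← hD']
      exact hval _ (hcop l D hDq.symm hlv)
    have hSv : S ∈ v.asIdeal := by
      have h4 : S ^ 2 ∈ v.asIdeal := by
        rw [hS2]
        exact v.asIdeal.neg_mem hlv
      exact hvp.mem_of_pow_mem _ h4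
    have hnorm : (Ideal.span {S}).absNorm = l := by
      have h4 : (Ideal.span {S ^ 2}).absNorm = l ^ 2 := by
        rw [hS2, Ideal.span_singleton_neg]
        have h5 := Ideal.absNorm_span_natCast (S := 𝓞 K) l
        rw [RingOfIntegers.rank, h2] at h5
        exact h5
      rw [← Ideal.span_singleton_pow, map_pow] at h4
      exact Nat.pow_left_injective (by norm_num : 2 ≠ 0) h4
    have hprime : (Ideal.span {S}).IsPrime := by
      refine Ideal.isPrime_of_irreducible_absNorm ?_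
      rw [hnorm]
      exact hl
    have hS0 : S ≠ 0 := by
      rintro rfl
      rw [Ideal.span_singleton_eq_bot.2 rfl, Ideal.absNorm_bot] at hnorm
      exact hl.ne_zero hnorm.symm
    have hmax : (Ideal.span {S}).IsMaximal :=
      hprime.isMaximal (by rwa [Ne, Ideal.span_singleton_eq_bot])
    have h4 : v.asIdeal = Ideal.span {S} :=
      (hmax.eq_of_le hvp.ne_top (by rwa [Ideal.span_singleton_le_iff_mem])).symm
    rw [h3, one_mul]
    change v.valuation K (algebraMap (𝓞 K) K S) = _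
    rw [HeightOneSpectrum.valuation_of_algebraMap]
    exact HeightOneSpectrum.intValuation_singleton v hS0 h4
  · -- `l` divides `D`
    have hlD : l ∣ D := by
      rcases (Nat.Prime.dvd_mul hl).1 hlqD with h | h
      · exact absurd ((Nat.prime_dvd_prime_iff_eq hl hq).1 h) hlq
      · exact h
    have hl4 := (hD.one l hl hlD).1
    have hqv : (q : 𝓞 K) ∉ v.asIdeal :=
      hcop l q ((Nat.coprime_primes hl hq).2 hlq) hlv
    have hSv : S ∉ v.asIdeal := by
      intro h
      apply hqv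
      have h4 : S ^ 2 ∈ v.asIdeal := v.asIdeal.pow_mem_of_mem h 2 (by norm_num)
      rw [hS2] at h4
      simpa using h4
    have h2v : (2 : 𝓞 K) ∉ v.asIdeal := by
      have h5 := hcop l 2 (by
        rw [Nat.coprime_primes hl Nat.prime_two]
        omega) hlv
      simpa using h5
    have h3 := notMem_sq hq0 hs h2 hS v l hl hlv h2v hSv
    obtain ⟨D', hD2⟩ := hlD
    have hD'v : (D' : 𝓞 K) ∉ v.asIdeal := by
      refine hcop l D' ?_ hlv
      rw [Nat.Prime.coprime_iff_not_dvd hl]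
      rintro ⟨m, hm⟩
      have h6 := hD.sqf l ⟨m, by rw [hD2, hm]; ring⟩
      exact hl.ne_one (Nat.isUnit_iff.1 h6)
    have h7 : v.valuation K (D : K) = WithZero.exp (-1 : ℤ) := by
      rw [hD2, Nat.cast_mul, map_mul]
      have h8 : v.valuation K (D' : K) = 1 := by
        have h9 := hval _ hD'v
        simpa using h9
      rw [h8, mul_one]
      have h9 : ((l : 𝓞 K) : K) = (l : K) := by simp
      rw [← h9]
      change v.valuation K (algebraMap (𝓞 K) K (l : 𝓞 K)) = _
      rw [HeightOneSpectrum.valuation_of_algebraMap]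
      have h10 : v.intValuation (l : 𝓞 K) ≤ WithZero.exp (-((1 : ℕ) : ℤ)) := by
        rw [HeightOneSpectrum.intValuation_le_pow_iff_mem, pow_one]
        exact hlv
      have h11 : ¬ v.intValuation (l : 𝓞 K) ≤ WithZero.exp (-((2 : ℕ) : ℤ)) := by
        rw [HeightOneSpectrum.intValuation_le_pow_iff_mem]
        exact h3
      have h12 : v.intValuation (l : 𝓞 K) ≠ 0 := by
        refine v.intValuation_ne_zero _ ?_
        exact_mod_cast hl.ne_zero
      obtain ⟨n, hn⟩ : ∃ n : ℤ, v.intValuation (l : 𝓞 K) = WithZero.exp n :=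
        ⟨_, (WithZero.exp_log h12).symm⟩
      rw [hn] at h10 h11 ⊢
      rw [WithZero.exp_le_exp] at h10 h11
      have : n = -1 := by push_cast at h10 h11; omega
      rw [this]
    rw [h7, hval S hSv, mul_one]

end Pool.Agent.Q154.BKC
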