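import Pool.Agent.Q274.BKC.Stm2
import Pool.Agent.Q154.BKC.ODD

/-!
# JOB BKC-3 (EMB)
-/

set_option autoImplicit false
set_option linter.unusedVariables false
set_option linter.unusedSectionVars false

namespace Pool.Agent.Q154.BKC

open NumberField IsDedekindDomain Polynomial Pool.Agent.Q274.BKC
open scoped Pointwise

section norm

variable {l : ℕ} [Fact l.Prime]

theorem norm_le_one {x : PadicAlgCl l} (hx : IsIntegral ℤ x) : ‖x‖ ≤ 1 := by
  obtain ⟨p, hp, hpx⟩ := hx
  by_contra hcon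
  push Not at hcon
  have h1 : x ^ p.natDegree + ∑ i ∈ Finset.range p.natDegree,
      ((p.coeff i : ℤ) : PadicAlgCl l) * x ^ i = 0 := by
    rw [← hpx, eval₂_eq_sum_range, Finset.sum_range_succ, hp.coeff_natDegree, map_one, one_mul,
      add_comm]
    rfl
  have hn : p.natDegree ≠ 0 := by
    intro h0
    rw [h0] at h1
    simp at h1
  obtain ⟨m, hm⟩ := Nat.exists_eq_succ_of_ne_zero hn
  rw [hm] at h1
  have h2 : ‖∑ i ∈ Finset.range m.succ, ((p.coeff i : ℤ) : PadicAlgCl l) * x ^ i‖ ≤ ‖x‖ ^ m := by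
    refine IsUltrametricDist.norm_sum_le_of_forall_le_of_nonneg (by positivity) fun i hi => ?_
    rw [norm_mul, norm_pow]
    have h3 : ‖((p.coeff i : ℤ) : PadicAlgCl l)‖ ≤ 1 := IsUltrametricDist.norm_intCast_le_one _ _
    have h4 : ‖x‖ ^ i ≤ ‖x‖ ^ m :=
      pow_le_pow_right₀ hcon.le (Nat.lt_succ_iff.1 (Finset.mem_range.1 hi))
    calc _ ≤ 1 * ‖x‖ ^ m := mul_le_mul h3 h4 (by positivity) zero_le_one
    _ = _ := one_mul _
  have h3 : ‖x‖ ^ (m + 1) ≤ ‖x‖ ^ m := by
    rw [← norm_pow, eq_neg_of_add_eq_zero_left h1, norm_neg]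
    exact h2
  have h4 : ‖x‖ ^ m < ‖x‖ ^ (m + 1) := pow_lt_pow_right₀ hcon (Nat.lt_succ_self m)
  exact absurd h3 (not_le.2 h4)

theorem norm_l : ‖((l : ℕ) : PadicAlgCl l)‖ < 1 := by
  have h1 : ((l : ℕ) : PadicAlgCl l) = algebraMap ℚ_[l] (PadicAlgCl l) (l : ℚ_[l]) := by simp
  rw [h1]
  have h2 := PadicAlgCl.norm_extends l (l : ℚ_[l])
  refine lt_of_eq_of_lt h2 ?_
  rw [Padic.norm_p]
  have h3 : (1 : ℝ) < l := by exact_mod_cast (Fact.out : l.Prime).one_lt
  exact inv_lt_one_of_one_lt₀ h3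

theorem norm_aut (σ : Gal(PadicAlgCl l/ℚ_[l])) (x : PadicAlgCl l) : ‖σ x‖ = ‖x‖ :=
  (spectralNorm_eq_of_equiv (K := ℚ_[l]) σ x).symm

theorem mem_adj {q : ℕ} {x τ : PadicAlgCl l} (hτ : τ ^ 2 = -(q : PadicAlgCl l))
    (hx : x ∈ IntermediateField.adjoin ℚ_[l] {τ}) : ∃ a b : ℚ_[l],
      x = algebraMap ℚ_[l] (PadicAlgCl l) a + algebraMap ℚ_[l] (PadicAlgCl l) b * τ := by
  have h1 := IntermediateField.adjoin_simple_toSubalgebra_of_isAlgebraic
    (Algebra.IsAlgebraic.isAlgebraic (R := ℚ_[l]) τ)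
  have h2 : x ∈ Algebra.adjoin ℚ_[l] {τ} := by
    rw [← h1]
    exact hx
  induction h2 using Algebra.adjoin_induction with
  | mem y hy =>
    rw [Set.mem_singleton_iff.1 hy]
    exact ⟨0, 1, by simp⟩
  | algebraMap r => exact ⟨r, 0, by simp⟩
  | add y z hy hz ihy ihz =>
    obtain ⟨a, b, hab⟩ := ihy (by
      have : y ∈ (IntermediateField.adjoin ℚ_[l] {τ}).toSubalgebra := by rw [h1]; exact hy
      exact this)
    obtain ⟨c, d, hcd⟩ := ihz (by
      have : z ∈ (IntermediateField.adjoin ℚ_[l] {τ}).toSubalgebra := by rw [h1]; exact hz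
      exact this)
    refine ⟨a + c, b + d, ?_⟩
    rw [hab, hcd, map_add, map_add]
    ring
  | mul y z hy hz ihy ihz =>
    obtain ⟨a, b, hab⟩ := ihy (by
      have : y ∈ (IntermediateField.adjoin ℚ_[l] {τ}).toSubalgebra := by rw [h1]; exact hy
      exact this)
    obtain ⟨c, d, hcd⟩ := ihz (by
      have : z ∈ (IntermediateField.adjoin ℚ_[l] {τ}).toSubalgebra := by rw [h1]; exact hz
      exact this)
    refine ⟨a * c - q * (b * d), a * d + b * c, ?_⟩
    rw [hab, hcd]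
    simp only [map_add, map_sub, map_mul, map_natCast]
    linear_combination (algebraMap ℚ_[l] (PadicAlgCl l) b * algebraMap ℚ_[l] (PadicAlgCl l) d) * hτ

end norm

theorem coords {K : Type} [Field K] [NumberField K] {q : ℕ} {s : K} (hq : 0 < q)
    (hs : s ^ 2 = -(q : K)) (h2 : Module.finrank ℚ K = 2) (x : K) :
    ∃ A B : ℚ, x = (A : K) + B * s := by
  have h3 : x ∈ Algebra.adjoin ℚ {s} := by
    rw [adjoin_top hq hs h2]
    exact Algebra.mem_top
  induction h3 using Algebra.adjoin_induction with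
  | mem y hy =>
    rw [Set.mem_singleton_iff.1 hy]
    exact ⟨0, 1, by simp⟩
  | algebraMap r => exact ⟨r, 0, by simp⟩
  | add y z hy hz ihy ihz =>
    obtain ⟨a, b, hab⟩ := ihy
    obtain ⟨c, d, hcd⟩ := ihz
    refine ⟨a + c, b + d, ?_⟩
    rw [hab, hcd]
    push_cast
    ring
  | mul y z hy hz ihy ihz =>
    obtain ⟨a, b, hab⟩ := ihy
    obtain ⟨c, d, hcd⟩ := ihz
    refine ⟨a * c - q * (b * d), a * d + b * c, ?_⟩
    rw [hab, hcd]
    push_cast
    linear_combination ((b : K) * d) * hs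

section ideal

variable {K : Type} [Field K] [NumberField K] {l : ℕ} [Fact l.Prime]

theorem norm_int_le (ι : AlgebraicClosure K →+* PadicAlgCl l) (z : OB K) :
    ‖ι (z : AlgebraicClosure K)‖ ≤ 1 :=
  norm_le_one (map_isIntegral_int ι (RingOfIntegers.isIntegral_coe z))

/-- The prime of an embedding. -/
noncomputable def QI (ι : AlgebraicClosure K →+* PadicAlgCl l) : Ideal (OB K) where
  carrier := {z | ‖ι (z : AlgebraicClosure K)‖ < 1}
  add_mem' := by
    intro a b ha hb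
    change ‖ι (algebraMap (OB K) (AlgebraicClosure K) (a + b))‖ < 1
    rw [map_add, map_add]
    exact lt_of_le_of_lt (IsUltrametricDist.norm_add_le_max _ _) (max_lt ha hb)
  zero_mem' := by
    change ‖ι (algebraMap (OB K) (AlgebraicClosure K) 0)‖ < 1
    rw [map_zero, map_zero, norm_zero]
    exact zero_lt_one
  smul_mem' := by
    intro c z hz
    change ‖ι (algebraMap (OB K) (AlgebraicClosure K) (c * z))‖ < 1
    rw [map_mul, map_mul, norm_mul]
    exact lt_of_le_of_lt (mul_le_of_le_one_left (norm_nonneg _) (norm_int_le ι c)) hz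

theorem mem_QI (ι : AlgebraicClosure K →+* PadicAlgCl l) (z : OB K) :
    z ∈ QI ι ↔ ‖ι (z : AlgebraicClosure K)‖ < 1 := Iff.rfl

theorem l_mem (ι : AlgebraicClosure K →+* PadicAlgCl l) : (l : OB K) ∈ QI ι := by
  rw [mem_QI]
  have h1 : ι ((l : OB K) : AlgebraicClosure K) = ((l : ℕ) : PadicAlgCl l) := by simp
  rw [h1]
  exact norm_l

theorem QI_prime (ι : AlgebraicClosure K →+* PadicAlgCl l) : (QI ι).IsPrime := by
  constructor
  · intro h
    have h1 : (1 : OB K) ∈ QI ι := by rw [h]; trivial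
    rw [mem_QI] at h1
    simp at h1
  · intro a b hab
    change ‖ι (algebraMap (OB K) (AlgebraicClosure K) (a * b))‖ < 1 at hab
    rw [map_mul, map_mul, norm_mul] at hab
    by_contra hcon
    push Not at hcon
    have h1 : 1 ≤ ‖ι (a : AlgebraicClosure K)‖ := not_lt.1 hcon.1
    have h2 : 1 ≤ ‖ι (b : AlgebraicClosure K)‖ := not_lt.1 hcon.2
    have h3 := mul_le_mul h1 h2 zero_le_one (norm_nonneg _)
    rw [one_mul] at h3
    exact absurd hab (not_lt.2 h3)

/-- The contraction to `ℤ` of a prime which contains `l`. -/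
theorem comap_eq (Q : Ideal (OB K)) (hQ : Q.IsPrime) (hl : (l : OB K) ∈ Q) :
    Q.comap (algebraMap ℤ (OB K)) = Ideal.span {(l : ℤ)} := by
  have hp : Prime (l : ℤ) := Nat.prime_iff_prime_int.1 Fact.out
  have hmax : (Ideal.span {(l : ℤ)}).IsMaximal :=
    PrincipalIdealRing.isMaximal_of_irreducible hp.irreducible
  symm
  refine hmax.eq_of_le (Ideal.comap_ne_top _ hQ.ne_top) ?_
  rw [Ideal.span_singleton_le_iff_mem, Ideal.mem_comap]
  simpa using hl

theorem QI_max (ι : AlgebraicClosure K →+* PadicAlgCl l) : (QI ι).IsMaximal := by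
  have h1 := QI_prime ι
  have hp : Prime (l : ℤ) := Nat.prime_iff_prime_int.1 Fact.out
  have hmax : (Ideal.span {(l : ℤ)}).IsMaximal :=
    PrincipalIdealRing.isMaximal_of_irreducible hp.irreducible
  refine Ideal.isMaximal_of_isIntegral_of_isMaximal_comap (R := ℤ) (QI ι) ?_
  rw [comap_eq (QI ι) h1 (l_mem ι)]
  exact hmax

/-- Lifting of automorphisms. -/
theorem exists_lift (ι : AlgebraicClosure K →+* PadicAlgCl l) (σ : PadicAlgCl l →+* PadicAlgCl l)
    (h : ∀ x : K, σ (ι (algebraMap K (AlgebraicClosure K) x)) =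
      ι (algebraMap K (AlgebraicClosure K) x)) : ∃ σ' : GK K, ∀ z, ι (σ' z) = σ (ι z) := by
  let _ : Algebra (AlgebraicClosure K) (PadicAlgCl l) := ι.toAlgebra
  let _ : Algebra K (PadicAlgCl l) := (ι.comp (algebraMap K (AlgebraicClosure K))).toAlgebra
  have _ : IsScalarTower K (AlgebraicClosure K) (PadicAlgCl l) :=
    IsScalarTower.of_algebraMap_eq fun _ => rfl
  let φ : AlgebraicClosure K →ₐ[K] PadicAlgCl l := { σ.comp ι with commutes' := h }
  refine ⟨Normal.algHomEquivAut K (PadicAlgCl l) (AlgebraicClosure K) φ, fun z => ?_⟩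
  have h1 := (Normal.algHomEquivAut K (PadicAlgCl l) (AlgebraicClosure K)).symm_apply_apply φ
  exact DFunLike.congr_fun h1 z

theorem emb_of (ι : AlgebraicClosure K →+* PadicAlgCl l) {q : ℕ} {s : K} (hq : 0 < q)
    (hs : s ^ 2 = -(q : K)) (h2 : Module.finrank ℚ K = 2) :
    (ι (algebraMap K (AlgebraicClosure K) s)) ^ 2 = -(q : PadicAlgCl l) ∧
      Emb s l (ι (algebraMap K (AlgebraicClosure K) s)) (QI ι) := by
  obtain ⟨τ, hτ⟩ : ∃ τ, τ = ι (algebraMap K (AlgebraicClosure K) s) := ⟨_, rfl⟩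
  rw [← hτ]
  have hτ2 : τ ^ 2 = -(q : PadicAlgCl l) := by
    rw [hτ, ← map_pow, ← map_pow, hs]
    simp
  have hval : ∀ A B : ℚ, ι (algebraMap K (AlgebraicClosure K) ((A : K) + B * s)) =
      ((A : ℚ) : PadicAlgCl l) + ((B : ℚ) : PadicAlgCl l) * τ := by
    intro A B
    rw [map_add, map_add, map_mul, map_mul, ← hτ]
    simp
  refine ⟨hτ2, QI_max ι, l_mem ι, ?_, ?_⟩
  · intro A B z hz
    rw [mem_QI, hz, hval]
  · intro A B hF
    obtain ⟨y, hy⟩ := IsAlgClosed.exists_pow_nat_eq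
      (algebraMap K (AlgebraicClosure K) ((A : K) + B * s)) (n := 2) (by norm_num)
    have hfix : ι y ∈ IntermediateField.adjoin ℚ_[l] {τ} := by
      rw [← InfiniteGalois.fixedField_fixingSubgroup (IntermediateField.adjoin ℚ_[l] {τ})]
      rw [IntermediateField.mem_fixedField_iff]
      intro σ hσ
      have hστ : σ τ = τ := by
        rw [IntermediateField.mem_fixingSubgroup_iff] at hσ
        exact hσ τ (IntermediateField.mem_adjoin_simple_self _ _)
      obtain ⟨σ', hσ'⟩ := exists_lift ι (σ : PadicAlgCl l →+* PadicAlgCl l) (by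
        intro x
        obtain ⟨a, b, rfl⟩ := coords hq hs h2 x
        rw [hval]
        change σ _ = _
        rw [map_add, map_mul, hστ, map_ratCast, map_ratCast])
      have hD : σ' ∈ Dec (QI ι) := by
        intro x
        rw [mem_QI, mem_QI]
        have h5 : ι ((σ' • x : OB K) : AlgebraicClosure K) = σ (ι (x : AlgebraicClosure K)) :=
          hσ' (x : AlgebraicClosure K)
        rw [h5, norm_aut]
      have h5 := hF y hy σ' hD
      have h6 := hσ' y
      rw [h5] at h6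
      exact h6.symm
    obtain ⟨a, b, hab⟩ := mem_adj hτ2 hfix
    refine ⟨a, b, ?_⟩
    rw [← hab, ← map_pow, hy, hval]

theorem exists_iota {q : ℕ} {s : K} (hq : 0 < q) (hs : s ^ 2 = -(q : K))
    (h2 : Module.finrank ℚ K = 2) (τ : PadicAlgCl l) (hτ : τ ^ 2 = -(q : PadicAlgCl l)) :
    ∃ ι : AlgebraicClosure K →+* PadicAlgCl l, ι (algebraMap K (AlgebraicClosure K) s) = τ := by
  have hint : IsIntegral ℚ s := Algebra.IsIntegral.isIntegral s
  obtain ⟨pb, hpb⟩ : ∃ pb : PowerBasis ℚ K, pb.gen = s :=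
    ⟨PowerBasis.ofAdjoinEqTop hint (adjoin_top hq hs h2),
      PowerBasis.ofAdjoinEqTop_gen hint (adjoin_top hq hs h2)⟩
  have haev : aeval τ (minpoly ℚ pb.gen) = 0 := by
    rw [hpb, minpoly_s hq hs]
    simp [hτ]
  let j : K →ₐ[ℚ] PadicAlgCl l := pb.lift τ haev
  have hj : j s = τ := by
    have h1 := pb.lift_gen τ haev
    rw [hpb] at h1
    exact h1
  let _ : Algebra K (PadicAlgCl l) := (j : K →+* PadicAlgCl l).toAlgebra
  let ι : AlgebraicClosure K →ₐ[K] PadicAlgCl l := IsAlgClosed.lift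
  refine ⟨(ι : AlgebraicClosure K →+* PadicAlgCl l), ?_⟩
  have h1 := ι.commutes s
  exact h1.trans hj

/-- Transitivity on the primes above `l`. -/
theorem exists_move (Q Q' : Ideal (OB K)) (hQ : Q.IsPrime) (hQ' : Q'.IsPrime)
    (hl : (l : OB K) ∈ Q) (hl' : (l : OB K) ∈ Q') :
    ∃ g : AlgebraicClosure K →+* AlgebraicClosure K, ∀ z z' : OB K,
      (z' : AlgebraicClosure K) = g (z : AlgebraicClosure K) → (z ∈ Q' ↔ z' ∈ Q) := by
  classical
  have halg : Algebra.IsAlgebraic ℚ (AlgebraicClosure K) :=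
    Algebra.IsAlgebraic.trans ℚ K (AlgebraicClosure K)
  have hcl : IsAlgClosure ℚ (AlgebraicClosure K) := ⟨inferInstance, halg⟩
  have hgal : IsGalois ℚ (AlgebraicClosure K) := IsAlgClosure.isGalois ℚ (AlgebraicClosure K)
  have h1 : SMulCommClass (Gal(AlgebraicClosure K/ℚ)) ℤ (OB K) := by
    refine ⟨fun g a b => ?_⟩
    exact smul_comm g a b
  have h2 : Algebra.IsInvariant ℤ (OB K) (Gal(AlgebraicClosure K/ℚ)) := by
    refine ⟨fun b hb => ?_⟩
    have h1 : (b : AlgebraicClosure K) ∈ (⊥ : IntermediateField ℚ (AlgebraicClosure K)) := by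
      rw [InfiniteGalois.mem_bot_iff_fixed]
      intro g
      have := congrArg (fun z : OB K => (z : AlgebraicClosure K)) (hb g)
      exact this
    obtain ⟨k, hk⟩ := IntermediateField.mem_bot.1 h1
    have h2 : IsIntegral ℤ k := by
      have h3 : IsIntegral ℤ (algebraMap ℚ (AlgebraicClosure K) k) := by
        rw [hk]
        exact b.2
      exact (isIntegral_algebraMap_iff (algebraMap ℚ (AlgebraicClosure K)).injective).1 h3
    obtain ⟨n, hn⟩ := IsIntegrallyClosed.isIntegral_iff.1 h2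
    refine ⟨n, ?_⟩
    apply RingOfIntegers.ext
    rw [← hk, ← hn]
    simp
  let _ : TopologicalSpace (OB K) := ⊥
  have : DiscreteTopology (OB K) := ⟨rfl⟩
  have : ContinuousSMul (Gal(AlgebraicClosure K/ℚ)) (OB K) := by
    rw [continuousSMul_iff_stabilizer_isOpen]
    intro x
    have h1 := stabilizer_isOpen_of_isIntegral (K := ℚ) (x : AlgebraicClosure K)
    convert h1 using 2
    ext g
    rw [MulAction.mem_stabilizer_iff, MulAction.mem_stabilizer_iff]
    constructor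
    · intro h
      exact congrArg (fun z : OB K => (z : AlgebraicClosure K)) h
    · intro h
      exact RingOfIntegers.ext h
  obtain ⟨g, hg⟩ := Algebra.IsInvariant.exists_smul_of_under_eq_of_profinite (A := ℤ)
    (G := Gal(AlgebraicClosure K/ℚ)) Q Q'
    ((comap_eq Q hQ hl).trans (comap_eq Q' hQ' hl').symm)
  refine ⟨((g⁻¹ : Gal(AlgebraicClosure K/ℚ)) : AlgebraicClosure K →+* AlgebraicClosure K),
    fun z z' hz => ?_⟩
  rw [hg, Ideal.mem_pointwise_smul_iff_inv_smul_mem]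
  have h5 : g⁻¹ • z = z' := RingOfIntegers.ext hz.symm
  rw [h5]

end ideal

/-- **BKC-3 (EMB).** -/
theorem t_EMB : S_EMB := by
  intro K _ _ q s hq hq8 hs h2 l _
  refine ⟨?_, ?_⟩
  · intro τ hτ
    obtain ⟨ι, hι⟩ := exists_iota hq.pos hs h2 τ hτ
    have h3 := (emb_of ι hq.pos hs h2).2
    rw [hι] at h3
    exact ⟨_, h3⟩
  · intro Q hQ hlQ
    obtain ⟨τ, hτ⟩ := IsAlgClosed.exists_pow_nat_eq (-(q : PadicAlgCl l)) (n := 2) (by norm_num)
    obtain ⟨ι, hι⟩ := exists_iota hq.pos hs h2 τ hτ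
    obtain ⟨g, hg⟩ := exists_move (l := l) (QI ι) Q (QI_prime ι) hQ.isPrime (l_mem ι) hlQ
    have h3 : QI (ι.comp g) = Q := by
      ext z
      have hz : IsIntegral ℤ (g (z : AlgebraicClosure K)) :=
        map_isIntegral_int g (RingOfIntegers.isIntegral_coe z)
      obtain ⟨z', hz'⟩ : ∃ z' : OB K, (z' : AlgebraicClosure K) = g (z : AlgebraicClosure K) :=
        ⟨⟨_, hz⟩, rfl⟩
      rw [hg z z' hz', mem_QI, mem_QI, hz']
      rfl
    have h4 := emb_of (ι.comp g) hq.pos hs h2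
    rw [h3] at h4
    exact ⟨_, h4⟩

end Pool.Agent.Q154.BKC
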